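import Mathlib
import Pool.Agent.V11124.MS.Final

/-!
# MP_a3b629_pr, Q1: hitting probabilities of Minkowski sums of random walk ranges

For all `N ≥ 1`, `d > 2N` and every finite `A ⊂ ℤ^d`, the ratio `p_A(z) / G_N(z)` converges as
`‖z‖ → ∞`.
-/

namespace Pool.Agent.Results.MP_a3b629_pr.RatioLimit

open MeasureTheory ProbabilityTheory Filter
open scoped ENNReal BigOperators Topology

/-- The lattice `ℤ^d`. -/
abbrev Lat (d : ℕ) := Fin d → ℤ

/-- The unit vector `+ e_i` (for `(i, true)`) or `- e_i` (for `(i, false)`). -/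
def unit {d : ℕ} (s : Fin d × Bool) : Lat d := Pi.single s.1 (if s.2 then 1 else -1)

/-- `ξ (i, j)` is the `j`-th increment (`j = 0, 1, 2, …`) of the `i`-th walk: all increments of
all the `N` walks are independent, and each takes each of the `2d` values `± e_k` with
probability `1/(2d)`. -/
structure IsWalks {Ω : Type*} [MeasurableSpace Ω] (μ : Measure Ω) {N d : ℕ}
    (ξ : Fin N × ℕ → Ω → Lat d) : Prop where
  measurable : ∀ e, Measurable (ξ e)
  indep : iIndepFun ξ μ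
  uniform : ∀ e s, μ {ω | ξ e ω = unit s} = (2 * d : ℝ≥0∞)⁻¹

/-- Position `S^i_n` of the `i`-th walk at time `n` (started at the origin). -/
def pos {Ω : Type*} {N d : ℕ} (ξ : Fin N × ℕ → Ω → Lat d) (i : Fin N) (n : ℕ) (ω : Ω) : Lat d :=
  ∑ j ∈ Finset.range n, ξ (i, j) ω

/-- The Minkowski sum `Σ_N` of the `N` ranges `{S^i_n : n ≥ 0}`. -/
def minkowski {Ω : Type*} {N d : ℕ} (ξ : Fin N × ℕ → Ω → Lat d) (ω : Ω) : Set (Lat d) :=
  {y | ∃ x : Fin N → Lat d, (∀ i, x i ∈ Set.range (fun n => pos ξ i n ω)) ∧ y = ∑ i, x i}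

/-- `p_A(z) = P((z + Σ_N) ∩ A ≠ ∅)`. -/
noncomputable def hitProb {Ω : Type*} [MeasurableSpace Ω] (μ : Measure Ω) {N d : ℕ}
    (ξ : Fin N × ℕ → Ω → Lat d) (A : Finset (Lat d)) (z : Lat d) : ℝ≥0∞ :=
  μ {ω | ∃ y ∈ minkowski ξ ω, z + y ∈ A}

/-- `n`-step transition probability of simple random walk on `ℤ^d` from the origin. -/
noncomputable def stepProb {d : ℕ} : ℕ → Lat d → ℝ≥0∞
  | 0 => fun x => if x = 0 then 1 else 0
  | n + 1 => fun x => (2 * d : ℝ≥0∞)⁻¹ * ∑ s : Fin d × Bool, stepProb n (x + unit s)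

/-- Green function of simple random walk, `G(x) = ∑ₙ P(S_n = x)`. -/
noncomputable def green {d : ℕ} (x : Lat d) : ℝ≥0∞ := ∑' n, stepProb n x

/-- `N`-fold convolution `G_N = G * ⋯ * G` (with `G_0 = δ_0`). -/
noncomputable def greenN {d : ℕ} : ℕ → Lat d → ℝ≥0∞
  | 0 => fun x => if x = 0 then 1 else 0
  | N + 1 => fun x => ∑' y, greenN N y * green (x - y)

lemma stepProb_eq {d : ℕ} (n : ℕ) : stepProb (d := d) n = V11124.MS.p n := by
  induction n with
  | zero => rfl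
  | succ n ih =>
    funext x
    rw [V11124.MS.p, Function.iterate_succ_apply']
    change (2 * d : ℝ≥0∞)⁻¹ * ∑ s : Fin d × Bool, stepProb n (x + unit s)
      = V11124.MS.P (V11124.MS.p n) x
    rw [ih]
    rfl

lemma green_eq {d : ℕ} : green (d := d) = V11124.MS.gr := by
  funext x
  unfold green V11124.MS.gr
  simp only [stepProb_eq]

lemma greenN_eq {d : ℕ} (N : ℕ) : greenN (d := d) N = V11124.MS.GN N := by
  induction N with
  | zero => rfl
  | succ N ih =>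
    funext x
    change ∑' y, greenN N y * green (x - y) = V11124.MS.conv (V11124.MS.GN N) V11124.MS.gr x
    rw [ih, green_eq]
    rfl

lemma hit_eq {Ω : Type*} {N d : ℕ} (ξ : Fin N × ℕ → Ω → Lat d) (A : Finset (Lat d)) (z : Lat d) :
    {ω | ∃ y ∈ minkowski ξ ω, z + y ∈ A} = ⋃ n, V11124.MS.hit ξ A z n := by
  ext ω
  simp only [Set.mem_ofPred_eq, Set.mem_iUnion]
  constructor
  · rintro ⟨y, ⟨x, hx, rfl⟩, hA⟩
    choose n hn using hx
    refine ⟨n, ?_⟩
    unfold V11124.MS.hit V11124.MS.V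
    rw [Set.mem_ofPred_eq]
    have : ∑ i, x i = ∑ i, ∑ j ∈ Finset.range (n i), ξ (i, j) ω :=
      Finset.sum_congr rfl fun i _ => (hn i).symm
    rw [this] at hA
    exact hA
  · rintro ⟨n, hn⟩
    exact ⟨_, ⟨fun i => pos ξ i (n i) ω, fun i => ⟨n i, rfl⟩, rfl⟩, hn⟩

/-- **Q1 (answered: yes).** For every `N ≥ 1`, every `d > 2N` and every finite `A ⊂ ℤ^d`, for `N`
independent simple random walks on `ℤ^d` on an arbitrary probability space: `G_N` is positive and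
finite, and the ratio `p_A(z) / G_N(z)` converges to a real limit as the Euclidean norm of `z`
tends to infinity. -/
theorem result : ∀ (N d : ℕ), 1 ≤ N → 2 * N < d →
    ∀ (Ω : Type) [MeasurableSpace Ω] (μ : Measure Ω) [IsProbabilityMeasure μ]
      (ξ : Fin N × ℕ → Ω → Lat d), IsWalks μ ξ → ∀ A : Finset (Lat d),
      (∀ z : Lat d, greenN N z ≠ 0 ∧ greenN N z ≠ ⊤) ∧
      ∃ ℓ : ℝ, ∀ ε > 0, ∃ R : ℝ, ∀ z : Lat d, R ≤ ∑ i, (z i : ℝ) ^ 2 →
        |(hitProb μ ξ A z).toReal / (greenN N z).toReal - ℓ| < ε := by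
  intro N d hN1 hN Ω _ μ _ ξ hξ A
  obtain ⟨M, rfl⟩ : ∃ M, N = M + 1 := ⟨N - 1, by omega⟩
  have hX : V11124.MS.IsSRW μ ξ := ⟨hξ.measurable, hξ.indep, hξ.uniform⟩
  refine ⟨fun z => ?_, ?_⟩
  · rw [greenN_eq]
    exact ⟨V11124.MS.GN_ne_zero hN z, V11124.MS.GN_ne_top hN _ le_rfl z⟩
  · obtain ⟨ℓ, hℓ⟩ := V11124.MS.main hN hX A
    refine ⟨ℓ, fun ε hε => ?_⟩
    rw [Metric.tendsto_nhds] at hℓ
    have h1 := hℓ ε hε
    rw [eventually_cofinite] at h1
    obtain ⟨B, hB⟩ := (h1.image (fun z : Lat d => ∑ i, (z i : ℝ) ^ 2)).bddAbove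
    refine ⟨B + 1, fun z hz => ?_⟩
    by_contra hcon
    have h2 : (∑ i, (z i : ℝ) ^ 2) ≤ B := by
      apply hB
      refine ⟨z, ?_, rfl⟩
      intro h3
      apply hcon
      rw [Real.dist_eq] at h3
      unfold hitProb
      rw [hit_eq, greenN_eq]
      exact h3
    linarith

end Pool.Agent.Results.MP_a3b629_pr.RatioLimit
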